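import Pool.Agent.Q77.Camp.Schw

open Complex Metric Set Filter Topology
open scoped ComplexConjugate

namespace Q77.Camp

theorem hasDerivAt_normSq {g : ℝ → ℂ} {g' : ℂ} {t : ℝ} (hg : HasDerivAt g g' t) :
    HasDerivAt (fun s => normSq (g s)) (2 * (conj (g t) * g').re) t := by
  have h1 : HasDerivAt (fun s => (g s).re) g'.re t :=
    (Complex.reCLM.hasFDerivAt.comp_hasDerivAt t hg)
  have h2 : HasDerivAt (fun s => (g s).im) g'.im t :=
    (Complex.imCLM.hasFDerivAt.comp_hasDerivAt t hg)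
  have h3 := (h1.fun_mul h1).fun_add (h2.fun_mul h2)
  have e : (fun s => normSq (g s)) = fun s => (g s).re * (g s).re + (g s).im * (g s).im := by
    funext s; rw [normSq_apply]
  rw [e]
  refine h3.congr_deriv ?_
  simp only [mul_re, conj_re, conj_im]
  ring

/-- distortion theorem for locally univalent functions of finite order -/
theorem distortion {F : ℂ → ℂ} (hF : DifferentiableOn ℂ F (ball 0 1))
    (hne : ∀ z : ℂ, ‖z‖ < 1 → deriv F z ≠ 0) {α : ℝ}
    (hord : ∀ z : ℂ, ‖z‖ < 1 →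
      ‖-conj z + (1 - (‖z‖ : ℂ) ^ 2) * iteratedDeriv 2 F z / (2 * deriv F z)‖ ≤ α)
    {z w : ℂ} (hz : ‖z‖ < 1) (hw : ‖w‖ < 1) {δ : ℝ} (hδ : δ = ‖(w - z) / (1 - conj z * w)‖) :
    (1 - ‖w‖ ^ 2) * ‖deriv F w‖ ≤
      (1 - ‖z‖ ^ 2) * ‖deriv F z‖ * ((1 + δ) / (1 - δ)) ^ α := by
  set P : ℂ → ℂ := deriv F with hP
  have hPd : DifferentiableOn ℂ P (ball 0 1) := hF.deriv isOpen_ball
  have hP2 : ∀ x, iteratedDeriv 2 F x = deriv P x := by
    intro x; rw [iteratedDeriv_succ, iteratedDeriv_one]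
  set b : ℂ := (w - z) / (1 - conj z * w) with hb
  have hδ1 : δ < 1 := by rw [hδ]; exact Pool.Agent.Helper203.NS.mob_lt hz hw
  have hδ0 : 0 ≤ δ := by rw [hδ]; exact norm_nonneg _
  have hden : ∀ t : ℝ, t ∈ Icc (0 : ℝ) 1 → 1 + conj z * (t * b) ≠ 0 := by
    intro t ht
    apply one_add_ne
    rw [norm_mul, norm_conj, norm_mul, norm_real, Real.norm_eq_abs, abs_of_nonneg ht.1, ← hδ]
    have h1 : t * δ ≤ 1 := mul_le_one₀ ht.2 hδ0 hδ1.le
    have h2 : 0 ≤ t * δ := mul_nonneg ht.1 hδ0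
    nlinarith [norm_nonneg z]
  set ζ : ℝ → ℂ := fun t => (z + t * b) / (1 + conj z * (t * b)) with hζ
  have hζ0 : ζ 0 = z := by simp [hζ]
  have hζ1 : ζ 1 = w := by
    have h1 := hden 1 ⟨by norm_num, le_rfl⟩
    have h2 : 1 - conj z * w ≠ 0 := Pool.Agent.Helper203.NS.one_sub_ne hz hw
    rw [hζ]
    simp only
    rw [div_eq_iff h1]
    have h3 : b * (1 - conj z * w) = w - z := div_mul_cancel₀ _ h2
    push_cast
    linear_combination h3
  -- `1 - |ζ|²`
  have hid : ∀ t : ℝ, t ∈ Icc (0 : ℝ) 1 →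
      1 - normSq (ζ t) = (1 - ‖z‖ ^ 2) * (1 - t ^ 2 * δ ^ 2) / normSq (1 + conj z * (t * b)) := by
    intro t ht
    have h1 := hden t ht
    have h2 : 0 < normSq (1 + conj z * (t * b)) := normSq_pos.mpr h1
    rw [hζ]
    simp only
    rw [map_div₀, eq_div_iff h2.ne', sub_mul, div_mul_cancel₀ _ h2.ne', one_mul]
    have h3 := Pool.Agent.Helper203.NS.mob_id (-z) (t * b)
    rw [map_neg] at h3
    have e1 : ‖(t : ℂ) * b‖ ^ 2 = t ^ 2 * δ ^ 2 := by
      rw [norm_mul, norm_real, mul_pow, ← hδ, Real.norm_eq_abs, sq_abs]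
    rw [norm_neg, e1] at h3
    rw [normSq_eq_norm_sq, normSq_eq_norm_sq]
    have e2 : 1 - -conj z * ((t : ℂ) * b) = 1 + conj z * (t * b) := by ring
    have e3 : (t : ℂ) * b - -z = z + t * b := by ring
    rw [e2, e3] at h3
    exact h3
  have hz2 : 0 < 1 - ‖z‖ ^ 2 := by nlinarith [norm_nonneg z]
  have htδ : ∀ t : ℝ, t ∈ Icc (0 : ℝ) 1 → t * δ < 1 := by
    intro t ht
    calc t * δ ≤ 1 * δ := mul_le_mul_of_nonneg_right ht.2 hδ0
      _ < 1 := by linarith
  have htδ2 : ∀ t : ℝ, t ∈ Icc (0 : ℝ) 1 → 0 < 1 - t ^ 2 * δ ^ 2 := by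
    intro t ht
    have h1 := htδ t ht
    have h2 : 0 ≤ t * δ := mul_nonneg ht.1 hδ0
    nlinarith
  have hpos : ∀ t : ℝ, t ∈ Icc (0 : ℝ) 1 → 0 < 1 - normSq (ζ t) := by
    intro t ht
    rw [hid t ht]
    have h2 : 0 < normSq (1 + conj z * (t * b)) := normSq_pos.mpr (hden t ht)
    have h3 := htδ2 t ht
    positivity
  have hζn : ∀ t : ℝ, t ∈ Icc (0 : ℝ) 1 → ‖ζ t‖ < 1 := by
    intro t ht
    have := hpos t ht
    rw [normSq_eq_norm_sq] at this
    nlinarith [norm_nonneg (ζ t)]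
  -- derivative of the path
  have hζd : ∀ t : ℝ, t ∈ Icc (0 : ℝ) 1 →
      HasDerivAt ζ (b * (1 - (‖z‖ : ℂ) ^ 2) / (1 + conj z * (t * b)) ^ 2) t := by
    intro t ht
    have h0 : HasDerivAt (fun s : ℝ => (s : ℂ)) 1 t := Complex.ofRealCLM.hasDerivAt
    have h1 := (h0.mul_const b).const_add z
    have h2 := ((h0.mul_const b).const_mul (conj z)).const_add 1
    have h3 := h1.fun_div h2 (hden t ht)
    refine h3.congr_deriv ?_
    congr 1
    have e : (‖z‖ : ℂ) ^ 2 = z * conj z := by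
      rw [Complex.mul_conj, normSq_eq_norm_sq]; push_cast; rfl
    rw [e]
    ring
  set U : ℝ → ℝ := fun t => Real.log (normSq (P (ζ t))) + 2 * Real.log (1 - normSq (ζ t)) with hU
  set K : ℝ → ℝ := fun t => U t - 2 * α * (Real.log (1 + t * δ) - Real.log (1 - t * δ)) with hK
  have hKd : ∀ t : ℝ, t ∈ Icc (0 : ℝ) 1 → ∃ k : ℝ, k ≤ 0 ∧ HasDerivAt K k t := by
    intro t ht
    have hnt := hζn t ht
    have hPt : P (ζ t) ≠ 0 := hne _ hnt
    have hPn : 0 < normSq (P (ζ t)) := normSq_pos.mpr hPt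
    have hPat : HasDerivAt P (deriv P (ζ t)) (ζ t) :=
      (hPd.differentiableAt (isOpen_ball.mem_nhds (by simpa using hnt))).hasDerivAt
    set ζ' : ℂ := b * (1 - (‖z‖ : ℂ) ^ 2) / (1 + conj z * (t * b)) ^ 2 with hζ'
    have h1 : HasDerivAt (fun s => P (ζ s)) (deriv P (ζ t) * ζ') t := by
      have := hPat.scomp_of_eq t (hζd t ht) rfl
      refine this.congr_deriv ?_
      rw [smul_eq_mul, mul_comm]
    have h2 := (hasDerivAt_normSq h1).log hPn.ne'
    have h3 := ((hasDerivAt_normSq (hζd t ht)).const_sub 1).log (hpos t ht).ne'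
    have h4 : HasDerivAt (fun s : ℝ => Real.log (1 + s * δ)) (δ / (1 + t * δ)) t := by
      have h := (((hasDerivAt_id' t).mul_const δ).const_add 1).log
        (show 1 + t * δ ≠ 0 by nlinarith [mul_nonneg ht.1 hδ0])
      simpa using h
    have h5 : HasDerivAt (fun s : ℝ => Real.log (1 - s * δ)) (-δ / (1 - t * δ)) t := by
      have h := (((hasDerivAt_id' t).mul_const δ).const_sub 1).log
        (show 1 - t * δ ≠ 0 by linarith [htδ t ht])
      simpa using h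
    have hKt := (h2.fun_add (h3.const_mul 2)).fun_sub ((h4.fun_sub h5).const_mul (2 * α))
    refine ⟨_, ?_, hKt⟩
    -- the estimate
    set n : ℝ := 1 - normSq (ζ t) with hn
    have hnpos : 0 < n := hpos t ht
    have hq : (conj (P (ζ t)) * (deriv P (ζ t) * ζ')).re / normSq (P (ζ t))
        = (deriv P (ζ t) * ζ' / P (ζ t)).re := by
      have e : deriv P (ζ t) * ζ' / P (ζ t)
          = (conj (P (ζ t)) * (deriv P (ζ t) * ζ')) / ((normSq (P (ζ t)) : ℝ) : ℂ) := by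
        rw [← Complex.mul_conj]
        have : conj (P (ζ t)) ≠ 0 := by simpa using hPt
        field_simp
      rw [e, div_ofReal_re]
    have hcomb : 2 * (conj (P (ζ t)) * (deriv P (ζ t) * ζ')).re / normSq (P (ζ t))
        + 2 * (-(2 * (conj (ζ t) * ζ').re) / n)
        = 4 / n * ((-conj (ζ t) + (1 - (‖ζ t‖ : ℂ) ^ 2) * iteratedDeriv 2 F (ζ t) /
          (2 * deriv F (ζ t))) * ζ').re := by
      rw [mul_div_assoc, hq, hP2]
      have e1 : (1 - (‖ζ t‖ : ℂ) ^ 2) = ((n : ℝ) : ℂ) := by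
        rw [hn, normSq_eq_norm_sq]; push_cast; rfl
      rw [e1]
      have e2 : (-conj (ζ t) + (n : ℂ) * deriv P (ζ t) / (2 * deriv F (ζ t))) * ζ'
          = ((n / 2 : ℝ) : ℂ) * (deriv P (ζ t) * ζ' / P (ζ t)) - conj (ζ t) * ζ' := by
        rw [← hP]
        push_cast
        field_simp
        ring
      rw [e2, sub_re, re_ofReal_mul]
      field_simp
      ring
    rw [hcomb]
    have hle : ((-conj (ζ t) + (1 - (‖ζ t‖ : ℂ) ^ 2) * iteratedDeriv 2 F (ζ t) /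
          (2 * deriv F (ζ t))) * ζ').re ≤ α * ‖ζ'‖ := by
      calc _ ≤ ‖(-conj (ζ t) + (1 - (‖ζ t‖ : ℂ) ^ 2) * iteratedDeriv 2 F (ζ t) /
          (2 * deriv F (ζ t))) * ζ'‖ := re_le_norm _
        _ = ‖-conj (ζ t) + (1 - (‖ζ t‖ : ℂ) ^ 2) * iteratedDeriv 2 F (ζ t) /
          (2 * deriv F (ζ t))‖ * ‖ζ'‖ := norm_mul _ _
        _ ≤ α * ‖ζ'‖ := mul_le_mul_of_nonneg_right (hord _ hnt) (norm_nonneg _)
    have hζ'n : ‖ζ'‖ / n = δ / (1 - t ^ 2 * δ ^ 2) := by
      have hd := hden t ht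
      have hdn : 0 < ‖1 + conj z * (t * b)‖ := norm_pos_iff.mpr hd
      have e1 : ‖ζ'‖ = δ * (1 - ‖z‖ ^ 2) / ‖1 + conj z * (t * b)‖ ^ 2 := by
        have e2 : (1 - (‖z‖ : ℂ) ^ 2) = ((1 - ‖z‖ ^ 2 : ℝ) : ℂ) := by push_cast; rfl
        rw [hζ', norm_div, norm_mul, norm_pow, ← hδ, e2, norm_real, Real.norm_eq_abs,
          abs_of_pos hz2]
      have h6 := htδ2 t ht
      rw [e1, hn, hid t ht, normSq_eq_norm_sq]
      revert hdn
      generalize ‖1 + conj z * (t * b)‖ = X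
      intro hX
      have h7 := h6.ne'
      have h8 := hz2.ne'
      revert h7 h8
      generalize 1 - t ^ 2 * δ ^ 2 = Y
      generalize 1 - ‖z‖ ^ 2 = W
      intro h7 h8
      field_simp
    have hfin : 4 / n * ((-conj (ζ t) + (1 - (‖ζ t‖ : ℂ) ^ 2) * iteratedDeriv 2 F (ζ t) /
          (2 * deriv F (ζ t))) * ζ').re ≤ 4 * α * (δ / (1 - t ^ 2 * δ ^ 2)) := by
      rw [← hζ'n]
      calc _ ≤ 4 / n * (α * ‖ζ'‖) := mul_le_mul_of_nonneg_left hle (by positivity)
        _ = _ := by ring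
    have hlast : 2 * α * (δ / (1 + t * δ) - -δ / (1 - t * δ))
        = 4 * α * (δ / (1 - t ^ 2 * δ ^ 2)) := by
      have h6 : 1 - t ^ 2 * δ ^ 2 ≠ 0 := (htδ2 t ht).ne'
      have h7 : 1 + t * δ ≠ 0 := by nlinarith [mul_nonneg ht.1 hδ0]
      have h8 : 1 - t * δ ≠ 0 := by linarith [htδ t ht]
      have h9 : 1 - t ^ 2 * δ ^ 2 = (1 + t * δ) * (1 - t * δ) := by ring
      rw [h9]
      revert h7 h8
      generalize t * δ = x
      intro h7 h8
      field_simp
      ring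
    rw [hlast]
    linarith
  have hanti : AntitoneOn K (Icc 0 1) := by
    apply antitoneOn_of_deriv_nonpos (convex_Icc 0 1)
    · intro t ht
      obtain ⟨k, -, hk⟩ := hKd t ht
      exact hk.continuousAt.continuousWithinAt
    · intro t ht
      rw [interior_Icc] at ht
      obtain ⟨k, -, hk⟩ := hKd t (Ioo_subset_Icc_self ht)
      exact hk.differentiableAt.differentiableWithinAt
    · intro t ht
      rw [interior_Icc] at ht
      obtain ⟨k, hk0, hk⟩ := hKd t (Ioo_subset_Icc_self ht)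
      rw [hk.deriv]
      exact hk0
  have hK10 := hanti (left_mem_Icc.mpr zero_le_one) (right_mem_Icc.mpr zero_le_one) zero_le_one
  have hw2 : 0 < 1 - ‖w‖ ^ 2 := by nlinarith [norm_nonneg w]
  have hPz : 0 < ‖P z‖ := norm_pos_iff.mpr (hne z hz)
  have hPw : 0 < ‖P w‖ := norm_pos_iff.mpr (hne w hw)
  simp only [hK, hU, hζ0, hζ1, one_mul, zero_mul, add_zero, sub_zero, Real.log_one,
    mul_zero] at hK10
  rw [normSq_eq_norm_sq, normSq_eq_norm_sq, normSq_eq_norm_sq, normSq_eq_norm_sq, Real.log_pow,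
    Real.log_pow] at hK10
  push_cast at hK10
  have hlog : Real.log ((1 - ‖w‖ ^ 2) * ‖P w‖) ≤
      Real.log ((1 - ‖z‖ ^ 2) * ‖P z‖ * ((1 + δ) / (1 - δ)) ^ α) := by
    have hT : 0 < (1 + δ) / (1 - δ) := div_pos (by linarith) (by linarith)
    rw [Real.log_mul hw2.ne' hPw.ne', Real.log_mul (by positivity)
      (Real.rpow_pos_of_pos hT α).ne', Real.log_mul hz2.ne' hPz.ne', Real.log_rpow hT,
      Real.log_div (by linarith) (by linarith)]
    linarith
  have hT : 0 < (1 + δ) / (1 - δ) := div_pos (by linarith) (by linarith)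
  exact (Real.log_le_log_iff (by positivity)
    (by have := Real.rpow_pos_of_pos hT α; positivity)).mp hlog

end Q77.Camp
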