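import Mathlib

namespace Q77.Camp

/-- the polynomial identity behind the concavity argument -/
theorem poly_id (a j P M : ℝ) :
    j * (4 * a * P * M - ((1 + a) * ((P + M) * j - P * j ^ 2) - (1 - a) * M) *
      ((1 + a) * P * j ^ 2 + (1 - a) * (2 * M - P)))
    = (1 + a) * (j * (1 + a) - (1 - a)) * P * ((1 - j) * (M * (1 + j + j ^ 2) - P * j ^ 3))
      + (1 + a) * (1 - a) * P * (1 - j) ^ 2 * (P * j ^ 2 + 2 * M * j + M)
      + 2 * M * (P - M) * (1 - a) * j * (j * (1 + a) - (1 - a)) := by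
  ring

theorem poly_ineq {a j P M : ℝ} (ha0 : 0 ≤ a) (ha1 : a ≤ 1) (hj0 : 0 < j) (hj1 : j ≤ 1)
    (hM : 0 < M) (hMP : M ≤ P) (h3 : P ≤ 3 * M) (hjb : 1 - a ≤ j * (1 + a)) :
    ((1 + a) * ((P + M) * j - P * j ^ 2) - (1 - a) * M) *
      ((1 + a) * P * j ^ 2 + (1 - a) * (2 * M - P)) ≤ 4 * a * P * M := by
  have hP : 0 < P := lt_of_lt_of_le hM hMP
  have h1 : 0 ≤ j * (1 + a) - (1 - a) := by linarith
  have h2 : 0 ≤ M * (1 + j + j ^ 2) - P * j ^ 3 := by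
    have e1 : j ^ 3 ≤ 1 := pow_le_one₀ hj0.le hj1
    have e2 : j ^ 3 ≤ j := by
      calc j ^ 3 = j * j ^ 2 := by ring
        _ ≤ j * 1 := mul_le_mul_of_nonneg_left (pow_le_one₀ hj0.le hj1) hj0.le
        _ = j := mul_one j
    have e3 : j ^ 3 ≤ j ^ 2 := by
      calc j ^ 3 = j ^ 2 * j := by ring
        _ ≤ j ^ 2 * 1 := mul_le_mul_of_nonneg_left hj1 (by positivity)
        _ = j ^ 2 := mul_one _
    have e4 : 0 ≤ j ^ 3 := by positivity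
    have e5 : P * j ^ 3 ≤ 3 * M * j ^ 3 := mul_le_mul_of_nonneg_right h3 e4
    have e6 : M * (j ^ 3 + j ^ 3 + j ^ 3) ≤ M * (1 + j + j ^ 2) :=
      mul_le_mul_of_nonneg_left (by linarith) hM.le
    linarith
  have hid := poly_id a j P M
  have t1 : 0 ≤ (1 + a) * (j * (1 + a) - (1 - a)) * P *
      ((1 - j) * (M * (1 + j + j ^ 2) - P * j ^ 3)) := by
    apply mul_nonneg (mul_nonneg (mul_nonneg (by linarith) h1) hP.le)
    exact mul_nonneg (by linarith) h2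
  have t2 : 0 ≤ (1 + a) * (1 - a) * P * (1 - j) ^ 2 * (P * j ^ 2 + 2 * M * j + M) := by
    have : 0 ≤ 1 - a := by linarith
    positivity
  have t3 : 0 ≤ 2 * M * (P - M) * (1 - a) * j * (j * (1 + a) - (1 - a)) := by
    have e1 : 0 ≤ 1 - a := by linarith
    have e2 : 0 ≤ P - M := by linarith
    positivity
  have t4 : 0 ≤ j * (4 * a * P * M - ((1 + a) * ((P + M) * j - P * j ^ 2) - (1 - a) * M) *
      ((1 + a) * P * j ^ 2 + (1 - a) * (2 * M - P))) := by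
    rw [hid]; linarith
  have t5 := nonneg_of_mul_nonneg_right t4 hj0
  linarith

/-- inequality (5) -/
theorem ineq5 {a t c H G V2 J : ℝ} (ha0 : 0 ≤ a) (ha1 : a < 1) (ht0 : 0 ≤ t) (ht1 : t < 1)
    (ht4 : 0 ≤ t ^ 2 - 4 * t + 1) (hc1 : -t ≤ c) (hc2 : c ≤ t)
    (hH : H = 1 + 2 * a * c + t ^ 2) (hV : V2 = 1 - 2 * c + t ^ 2) (hG0 : 0 ≤ G)
    (hG : G ^ 2 = H ^ 2 - (1 - a ^ 2) * (1 - t ^ 2) ^ 2)
    (hG1 : G ≤ a * (1 + t ^ 2) + 2 * t) (hG2 : 2 * t - a * (1 + t ^ 2) ≤ G)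
    (hJ : (1 + a) * (1 + t) ^ 2 * J = H + G) :
    V2 * (H * J ^ 2 - 2 * t * (1 - a) * J) ≤ (1 - t ^ 2) ^ 2 := by
  have hHpos : 0 < H := by
    rw [hH]; nlinarith
  have hP : 0 < (1 + t) ^ 2 := by positivity
  have hM : 0 < (1 - t) ^ 2 := by
    have : 0 < 1 - t := by linarith
    positivity
  have hsP : 0 < (1 + a) * (1 + t) ^ 2 := by positivity
  have hJ0 : 0 < J := by
    have : 0 < (1 + a) * (1 + t) ^ 2 * J := by rw [hJ]; linarith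
    exact (pos_iff_pos_of_mul_pos this).mp hsP
  have hJ1 : J ≤ 1 := by
    have : (1 + a) * (1 + t) ^ 2 * J ≤ (1 + a) * (1 + t) ^ 2 * 1 := by
      rw [hJ, hH]
      nlinarith
    exact le_of_mul_le_mul_left this hsP
  have hJb : 1 - a ≤ J * (1 + a) := by
    have : (1 + t) ^ 2 * (1 - a) ≤ (1 + t) ^ 2 * (J * (1 + a)) := by
      have e : (1 + t) ^ 2 * (J * (1 + a)) = H + G := by rw [← hJ]; ring
      rw [e, hH]
      nlinarith
    exact le_of_mul_le_mul_left this hP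
  have hR0 : J * (H - G) = (1 - a) * (1 - t) ^ 2 := by
    have h1 : (1 + a) * (1 + t) ^ 2 * (J * (H - G)) = (1 + a) * (1 + t) ^ 2 *
        ((1 - a) * (1 - t) ^ 2) := by
      calc (1 + a) * (1 + t) ^ 2 * (J * (H - G)) = ((1 + a) * (1 + t) ^ 2 * J) * (H - G) := by ring
        _ = (H + G) * (H - G) := by rw [hJ]
        _ = H ^ 2 - G ^ 2 := by ring
        _ = _ := by rw [hG]; ring
    exact mul_left_cancel₀ hsP.ne' h1
  have hR1 : 2 * H * J = (1 + a) * (1 + t) ^ 2 * J ^ 2 + (1 - a) * (1 - t) ^ 2 := by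
    linear_combination (-J) * hJ + hR0
  rcases ha0.eq_or_lt with h0 | h0
  · -- the case `a = 0`
    subst h0
    have hJ' : J = 1 := by
      have hH0 : H = 1 + t ^ 2 := by rw [hH]; ring
      have hG' : G ^ 2 = (2 * t) ^ 2 := by rw [hG, hH0]; ring
      have hG'' : G = 2 * t := by
        exact (sq_eq_sq₀ hG0 (by positivity)).mp hG'
      have : (1 + t) ^ 2 * J = (1 + t) ^ 2 * 1 := by
        have h2 := hJ
        rw [hH0, hG''] at h2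
        linear_combination h2
      exact mul_left_cancel₀ hP.ne' this
    have hH0 : H = 1 + t ^ 2 := by rw [hH]; ring
    rw [hJ', hH0, hV]
    have e : (1 - t ^ 2) ^ 2 = (1 + t) ^ 2 * (1 - t) ^ 2 := by ring
    rw [e]
    have : (1 - 2 * c + t ^ 2) * (1 - t) ^ 2 ≤ (1 + t) ^ 2 * (1 - t) ^ 2 :=
      mul_le_mul_of_nonneg_right (by nlinarith) hM.le
    nlinarith
  · have hpoly := poly_ineq (a := a) (j := J) (P := (1 + t) ^ 2) (M := (1 - t) ^ 2) ha0 ha1.le hJ0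
      hJ1 hM (by nlinarith) (by nlinarith) hJb
    have hR2 : a * V2 = (1 + a) * (1 + t ^ 2) - H := by rw [hV, hH]; ring
    have e1 : 4 * a * (V2 * (H * J ^ 2 - 2 * t * (1 - a) * J))
        = ((1 + a) * (((1 + t) ^ 2 + (1 - t) ^ 2) * J - (1 + t) ^ 2 * J ^ 2)
            - (1 - a) * (1 - t) ^ 2) *
          ((1 + a) * (1 + t) ^ 2 * J ^ 2 + (1 - a) * (2 * (1 - t) ^ 2 - (1 + t) ^ 2)) := by
      have f1 : 2 * J * ((1 + a) * (1 + t ^ 2) - H)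
          = (1 + a) * (((1 + t) ^ 2 + (1 - t) ^ 2) * J - (1 + t) ^ 2 * J ^ 2)
            - (1 - a) * (1 - t) ^ 2 := by
        linear_combination -hR1
      have f2 : 2 * (H * J - 2 * t * (1 - a))
          = (1 + a) * (1 + t) ^ 2 * J ^ 2 + (1 - a) * (2 * (1 - t) ^ 2 - (1 + t) ^ 2) := by
        linear_combination hR1
      rw [← f1, ← f2, ← hR2]
      ring
    have e2 : 4 * a * (V2 * (H * J ^ 2 - 2 * t * (1 - a) * J)) ≤ 4 * a * (1 - t ^ 2) ^ 2 := by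
      rw [e1]
      calc _ ≤ 4 * a * (1 + t) ^ 2 * (1 - t) ^ 2 := hpoly
        _ = 4 * a * (1 - t ^ 2) ^ 2 := by ring
    exact le_of_mul_le_mul_left e2 (by positivity)

/-- the extremal case `r = |y|` -/
theorem ineq_t {a t c H G V A : ℝ} (ha0 : 0 ≤ a) (ha1 : a < 1) (ht0 : 0 ≤ t) (ht1 : t < 1)
    (ht4 : 0 ≤ t ^ 2 - 4 * t + 1) (hc1 : -t ≤ c) (hc2 : c ≤ t)
    (hH : H = 1 + 2 * a * c + t ^ 2) (hV0 : 0 ≤ V) (hV : V ^ 2 = 1 - 2 * c + t ^ 2) (hG0 : 0 ≤ G)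
    (hG : G ^ 2 = H ^ 2 - (1 - a ^ 2) * (1 - t ^ 2) ^ 2)
    (hG1 : G ≤ a * (1 + t ^ 2) + 2 * t) (hG2 : 2 * t - a * (1 + t ^ 2) ≤ G) (hA0 : 0 ≤ A)
    (hA : A ^ 2 = t ^ 2 * (1 - a) ^ 2 * V ^ 2 + (1 - t ^ 2) ^ 2 * H) :
    (1 - a) * V * (A - t * (1 - a) * V) ≤ (1 + t) ^ 2 * (H - G) := by
  have hHpos : 0 < H := by
    rw [hH]; nlinarith
  have hsP : 0 < (1 + a) * (1 + t) ^ 2 := by positivity
  obtain ⟨J, hJdef⟩ : ∃ J, J = (H + G) / ((1 + a) * (1 + t) ^ 2) := ⟨_, rfl⟩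
  have hJ : (1 + a) * (1 + t) ^ 2 * J = H + G := by
    rw [hJdef]; field_simp
  have h5 := ineq5 ha0 ha1 ht0 ht1 ht4 hc1 hc2 hH hV hG0 hG hG1 hG2 hJ
  have hB0 : 0 ≤ t * (1 - a) * V := by
    have : 0 ≤ 1 - a := by linarith
    positivity
  -- `A ≥ V H J - B`
  have hAge : V * H * J - t * (1 - a) * V ≤ A := by
    by_contra hcon
    push Not at hcon
    have h1 : A ^ 2 < (V * H * J - t * (1 - a) * V) ^ 2 := pow_lt_pow_left₀ hcon hA0 two_ne_zero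
    rw [hA] at h1
    have h2 : (1 - t ^ 2) ^ 2 * H < (V ^ 2 * (H * J ^ 2 - 2 * t * (1 - a) * J)) * H := by
      linarith
    have h3 := lt_of_mul_lt_mul_right h2 hHpos.le
    linarith
  have h6 : V * H * (H + G) ≤ (1 + a) * (1 + t) ^ 2 * (A + t * (1 - a) * V) := by
    rw [← hJ]
    have : (1 + a) * (1 + t) ^ 2 * (V * H * J) ≤ (1 + a) * (1 + t) ^ 2 * (A + t * (1 - a) * V) :=
      mul_le_mul_of_nonneg_left (by linarith) hsP.le
    linarith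
  have hHG : 0 < H + G := by linarith
  have ht2 : 0 < 1 - t ^ 2 := by nlinarith
  have hAB : 0 < A + t * (1 - a) * V := by
    have hA2 : 0 < A ^ 2 := by
      rw [hA]
      have : 0 < (1 - t ^ 2) ^ 2 * H := by positivity
      have : 0 ≤ t ^ 2 * (1 - a) ^ 2 * V ^ 2 := by positivity
      linarith
    have : 0 < A := by
      rcases hA0.eq_or_lt with h | h
      · rw [← h] at hA2; norm_num at hA2
      · exact h
    linarith
  -- multiply out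
  have h7 : ((1 - a) * V * (A - t * (1 - a) * V)) * ((H + G) * (A + t * (1 - a) * V))
      ≤ ((1 + t) ^ 2 * (H - G)) * ((H + G) * (A + t * (1 - a) * V)) := by
    have e1 : ((1 - a) * V * (A - t * (1 - a) * V)) * ((H + G) * (A + t * (1 - a) * V))
        = ((1 - a) * (1 - t ^ 2) ^ 2) * (V * H * (H + G)) := by
      linear_combination ((1 - a) * V * (H + G)) * hA
    have e2 : ((1 + t) ^ 2 * (H - G)) * ((H + G) * (A + t * (1 - a) * V))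
        = ((1 - a) * (1 - t ^ 2) ^ 2) * ((1 + a) * (1 + t) ^ 2 * (A + t * (1 - a) * V)) := by
      linear_combination (-(1 + t) ^ 2 * (A + t * (1 - a) * V)) * hG
    rw [e1, e2]
    apply mul_le_mul_of_nonneg_left h6
    have : 0 ≤ 1 - a := by linarith
    positivity
  exact le_of_mul_le_mul_right h7 (by positivity)

open Complex in
/-- the planar form, with the radius `r ≥ |y|` -/
theorem planar {a r : ℝ} {y : ℂ} (ha0 : 0 ≤ a) (ha1 : a < 1) (hr1 : r < 1)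
    (hr4 : 0 ≤ r ^ 2 - 4 * r + 1) (hy : ‖y‖ ≤ r) :
    (1 - a) * ‖1 - y‖ * (‖1 + a * y - r ^ 2 * (a + y)‖ - r * (1 - a) * ‖1 - y‖)
      ≤ (1 + r) ^ 2 * ((1 + 2 * a * y.re + ‖y‖ ^ 2) - ‖a + 2 * y + a * y ^ 2‖) := by
  obtain ⟨t, ht⟩ : ∃ t, t = ‖y‖ := ⟨_, rfl⟩
  have ht0 : 0 ≤ t := by rw [ht]; exact norm_nonneg y
  have htr : t ≤ r := by rw [ht]; exact hy
  have ht1 : t < 1 := lt_of_le_of_lt htr hr1
  have hr0 : 0 ≤ r := ht0.trans htr
  have ht4 : 0 ≤ t ^ 2 - 4 * t + 1 := by nlinarith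
  have htr1 : t * r ≤ 1 := mul_le_one₀ ht1.le hr0 hr1.le
  have hr2 : 0 ≤ 1 - r ^ 2 := by
    have := pow_le_one₀ (n := 2) hr0 hr1.le
    linarith
  have ht2 : 0 ≤ 1 - t ^ 2 := by
    have := pow_le_one₀ (n := 2) ht0 ht1.le
    linarith
  have ha2 : 0 ≤ 1 - a ^ 2 := by
    have := pow_le_one₀ (n := 2) ha0 ha1.le
    linarith
  obtain ⟨c, hc⟩ : ∃ c, c = y.re := ⟨_, rfl⟩
  obtain ⟨d, hd⟩ : ∃ d, d = y.im := ⟨_, rfl⟩
  have hcd : t ^ 2 = c ^ 2 + d ^ 2 := by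
    rw [ht, hc, hd, ← normSq_eq_norm_sq, normSq_apply]; ring
  have hc1 : -t ≤ c := by
    rw [ht, hc]; exact (abs_le.mp (abs_re_le_norm y)).1
  have hc2 : c ≤ t := by rw [ht, hc]; exact re_le_norm y
  obtain ⟨V, hVdef⟩ : ∃ V, V = ‖1 - y‖ := ⟨_, rfl⟩
  have hV0 : 0 ≤ V := by rw [hVdef]; exact norm_nonneg _
  have hV : V ^ 2 = 1 - 2 * c + t ^ 2 := by
    rw [hVdef, ← normSq_eq_norm_sq, normSq_apply, hcd, hc, hd]
    simp only [sub_re, one_re, sub_im, one_im]; ring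
  obtain ⟨H, hH⟩ : ∃ H, H = 1 + 2 * a * c + t ^ 2 := ⟨_, rfl⟩
  obtain ⟨G, hGdef⟩ : ∃ G, G = ‖(a : ℂ) + 2 * y + a * y ^ 2‖ := ⟨_, rfl⟩
  have hG0 : 0 ≤ G := by rw [hGdef]; exact norm_nonneg _
  have hG : G ^ 2 = H ^ 2 - (1 - a ^ 2) * (1 - t ^ 2) ^ 2 := by
    rw [hGdef, ← normSq_eq_norm_sq, normSq_apply, hH, hcd, hc, hd, pow_two y]
    simp only [add_re, mul_re, ofReal_re, ofReal_im, add_im, mul_im, re_ofNat, im_ofNat]
    ring
  have hG1 : G ≤ a * (1 + t ^ 2) + 2 * t := by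
    rw [hGdef, ht]
    calc ‖(a : ℂ) + 2 * y + a * y ^ 2‖ ≤ ‖(a : ℂ)‖ + ‖2 * y‖ + ‖(a : ℂ) * y ^ 2‖ := norm_add₃_le
      _ = a * (1 + ‖y‖ ^ 2) + 2 * ‖y‖ := by
          simp only [norm_mul, norm_pow, norm_real, Real.norm_eq_abs, abs_of_nonneg ha0,
            RCLike.norm_ofNat]
          ring
  have hG2 : 2 * t - a * (1 + t ^ 2) ≤ G := by
    rw [hGdef, ht]
    have h1 : ‖2 * y‖ ≤ ‖(a : ℂ) + 2 * y + a * y ^ 2‖ + (‖(a : ℂ)‖ + ‖(a : ℂ) * y ^ 2‖) := by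
      calc ‖2 * y‖ = ‖((a : ℂ) + 2 * y + a * y ^ 2) - (a + a * y ^ 2)‖ := by congr 1; ring
        _ ≤ ‖(a : ℂ) + 2 * y + a * y ^ 2‖ + ‖(a : ℂ) + a * y ^ 2‖ := norm_sub_le _ _
        _ ≤ _ := by gcongr; exact norm_add_le _ _
    simp only [norm_mul, norm_pow, norm_real, Real.norm_eq_abs, abs_of_nonneg ha0,
      RCLike.norm_ofNat] at h1
    linarith
  -- general formula for the modulus of `1 + a y - s² (a + y)`
  have hAf : ∀ s : ℝ, ‖1 + (a : ℂ) * y - (s : ℂ) ^ 2 * (a + y)‖ ^ 2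
      = ((1 - s ^ 2) ^ 2 * ((1 + a) ^ 2 * (1 + 2 * c + t ^ 2)) +
        (1 + s ^ 2) ^ 2 * ((1 - a) ^ 2 * V ^ 2) +
        2 * (1 - s ^ 2) * (1 + s ^ 2) * ((1 - a ^ 2) * (1 - t ^ 2))) / 4 := by
    intro s
    rw [← normSq_eq_norm_sq, normSq_apply, hV, hcd, hc, hd, pow_two (s : ℂ)]
    simp only [sub_re, add_re, mul_re, ofReal_re, ofReal_im, sub_im, add_im, mul_im, one_re,
      one_im]
    ring
  have h1 := ineq_t (a := a) (t := t) (c := c) (H := H) (G := G) (V := V)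
    (A := ‖1 + (a : ℂ) * y - (t : ℂ) ^ 2 * (a + y)‖) ha0 ha1 ht0 ht1 ht4 hc1 hc2 hH hV0 hV hG0 hG
    hG1 hG2 (norm_nonneg _) (by
      rw [hAf t, hV, hH]
      ring)
  -- comparison of the two radii
  set At := ‖1 + (a : ℂ) * y - (t : ℂ) ^ 2 * (a + y)‖ with hAt
  set Ar := ‖1 + (a : ℂ) * y - (r : ℂ) ^ 2 * (a + y)‖ with hAr
  have ha' : 0 ≤ 1 - a := by linarith
  have hU : 0 ≤ (1 + a) ^ 2 * (1 + 2 * c + t ^ 2) := by
    have e1 : 0 ≤ (1 - t) ^ 2 := sq_nonneg _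
    have e2 : (1 - t) ^ 2 = 1 - 2 * t + t ^ 2 := by ring
    have : 0 ≤ 1 + 2 * c + t ^ 2 := by linarith
    positivity
  have hX : 0 ≤ (1 - a ^ 2) * (1 - t ^ 2) := mul_nonneg ha2 ht2
  have k1 : (1 + t) ^ 2 * (1 - r ^ 2) ≤ (1 + r) ^ 2 * (1 - t ^ 2) := by
    have : (1 + r) ^ 2 * (1 - t ^ 2) - (1 + t) ^ 2 * (1 - r ^ 2)
        = 2 * (1 + r) * (1 + t) * (r - t) := by ring
    have h2 : 0 ≤ 2 * (1 + r) * (1 + t) * (r - t) := by
      have : 0 ≤ r - t := by linarith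
      positivity
    linarith
  have k2 : (1 + t) ^ 2 * (1 + r ^ 2) ≤ (1 + r) ^ 2 * (1 + t ^ 2) := by
    have : (1 + r) ^ 2 * (1 + t ^ 2) - (1 + t) ^ 2 * (1 + r ^ 2)
        = 2 * (r - t) * (1 - t * r) := by ring
    have h2 : 0 ≤ 2 * (r - t) * (1 - t * r) := by
      have e1 : 0 ≤ r - t := by linarith
      have e2 : 0 ≤ 1 - t * r := by linarith
      positivity
    linarith
  have p1 : 0 ≤ (1 + t) ^ 2 * (1 - r ^ 2) := by positivity
  have p2 : 0 ≤ (1 + t) ^ 2 * (1 + r ^ 2) := by positivity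
  have hA : (1 + t) ^ 2 * Ar ≤ (1 + r) ^ 2 * At := by
    have hsq : ((1 + t) ^ 2 * Ar) ^ 2 ≤ ((1 + r) ^ 2 * At) ^ 2 := by
      rw [mul_pow, mul_pow, hAr, hAt, hAf r, hAf t]
      have m1 : ((1 + t) ^ 2 * (1 - r ^ 2)) ^ 2 ≤ ((1 + r) ^ 2 * (1 - t ^ 2)) ^ 2 :=
        pow_le_pow_left₀ p1 k1 2
      have m2 : ((1 + t) ^ 2 * (1 + r ^ 2)) ^ 2 ≤ ((1 + r) ^ 2 * (1 + t ^ 2)) ^ 2 :=
        pow_le_pow_left₀ p2 k2 2
      have m3 : ((1 + t) ^ 2 * (1 - r ^ 2)) * ((1 + t) ^ 2 * (1 + r ^ 2))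
          ≤ ((1 + r) ^ 2 * (1 - t ^ 2)) * ((1 + r) ^ 2 * (1 + t ^ 2)) :=
        mul_le_mul k1 k2 p2 (p1.trans k1)
      have n1 := mul_le_mul_of_nonneg_right m1 hU
      have n2 := mul_le_mul_of_nonneg_right m2 (show 0 ≤ (1 - a) ^ 2 * V ^ 2 by positivity)
      have n3 := mul_le_mul_of_nonneg_right m3 hX
      linarith
    exact le_of_sq_le_sq hsq (by positivity)
  have hB : (1 + r) ^ 2 * (t * (1 - a) * V) ≤ (1 + t) ^ 2 * (r * (1 - a) * V) := by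
    have : (1 + r) ^ 2 * t ≤ (1 + t) ^ 2 * r := by
      have e : (1 + t) ^ 2 * r - (1 + r) ^ 2 * t = (r - t) * (1 - r * t) := by ring
      have h2 : 0 ≤ (r - t) * (1 - r * t) := by
        have e1 : 0 ≤ r - t := by linarith
        have e2 : 0 ≤ 1 - r * t := by rw [mul_comm]; linarith
        positivity
      linarith
    have h3 := mul_le_mul_of_nonneg_right this (show 0 ≤ (1 - a) * V by positivity)
    linarith
  have hfin : (1 + t) ^ 2 * ((1 - a) * V * (Ar - r * (1 - a) * V))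
      ≤ (1 + t) ^ 2 * ((1 + r) ^ 2 * (H - G)) := by
    calc (1 + t) ^ 2 * ((1 - a) * V * (Ar - r * (1 - a) * V))
        = ((1 - a) * V) * ((1 + t) ^ 2 * Ar - (1 + t) ^ 2 * (r * (1 - a) * V)) := by ring
      _ ≤ ((1 - a) * V) * ((1 + r) ^ 2 * At - (1 + r) ^ 2 * (t * (1 - a) * V)) := by
          apply mul_le_mul_of_nonneg_left (by linarith) (by positivity)
      _ = (1 + r) ^ 2 * ((1 - a) * V * (At - t * (1 - a) * V)) := by ring
      _ ≤ (1 + r) ^ 2 * ((1 + t) ^ 2 * (H - G)) :=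
          mul_le_mul_of_nonneg_left h1 (by positivity)
      _ = _ := by ring
  have hfin2 := le_of_mul_le_mul_left hfin (by positivity)
  rw [← hVdef, ← hGdef, ← ht, ← hc, ← hH]
  exact hfin2

end Q77.Camp
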