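import Pool.Agent.Q77.Camp.Ineq
import Pool.Agent.Q77.Camp.Dist

open Complex Metric Set Filter Topology
open scoped ComplexConjugate

namespace Q77.Camp

/-- the key inequality at a point -/
theorem point_ineq {a α r : ℝ} {y e z w w' : ℂ} (ha0 : 0 ≤ a) (ha1 : a < 1) (hα : 1 ≤ α)
    (hr : ‖z‖ = r) (hr1 : r < 1) (hrα : 2 * r * α ≤ (1 - r) ^ 2)
    (hy : ‖y‖ ≤ r) (he : ‖e‖ * (1 - r ^ 2) ≤ r ^ 2 - ‖y‖ ^ 2)
    (hw : w = z * ((a + y) / (1 + a * y)))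
    (hw' : w' = (a + y) / (1 + a * y) + (1 - (a : ℂ) ^ 2) * (y + e) / (1 + a * y) ^ 2)
    (hwn : ‖w‖ < 1) {δ : ℝ} (hδ : δ = ‖(w - z) / (1 - conj z * w)‖) :
    ‖w'‖ * ((1 - r ^ 2) * ((1 + δ) / (1 - δ)) ^ α) ≤ 1 - ‖w‖ ^ 2 := by
  have hr0 : 0 ≤ r := by rw [← hr]; exact norm_nonneg z
  have hr4 : 0 ≤ r ^ 2 - 4 * r + 1 := by nlinarith
  have hr2 : 0 < 1 - r ^ 2 := by nlinarith
  have hzn : ‖z‖ < 1 := by rw [hr]; exact hr1
  have hpl := planar ha0 ha1 hr1 hr4 hy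
  obtain ⟨q, hq⟩ : ∃ q : ℂ, q = 1 + a * y := ⟨_, rfl⟩
  obtain ⟨p, hp⟩ : ∃ p : ℂ, p = a + y := ⟨_, rfl⟩
  have hqne : q ≠ 0 := by
    rw [hq]
    apply one_add_ne
    rw [norm_mul, norm_real, Real.norm_eq_abs, abs_of_nonneg ha0]
    nlinarith [norm_nonneg y]
  have hqn : 0 < ‖q‖ := norm_pos_iff.mpr hqne
  obtain ⟨V, hV⟩ : ∃ V, V = ‖1 - y‖ := ⟨_, rfl⟩
  have hV0 : 0 ≤ V := by rw [hV]; exact norm_nonneg _
  obtain ⟨A, hA⟩ : ∃ A, A = ‖1 + (a : ℂ) * y - (r : ℂ) ^ 2 * (a + y)‖ := ⟨_, rfl⟩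
  obtain ⟨G, hG⟩ : ∃ G, G = ‖(a : ℂ) + 2 * y + a * y ^ 2‖ := ⟨_, rfl⟩
  rw [← hV, ← hA, ← hG] at hpl
  have ha' : 0 < 1 - a := by linarith
  obtain ⟨B, hB⟩ : ∃ B, B = r * (1 - a) * V := ⟨_, rfl⟩
  have hB0 : 0 ≤ B := by rw [hB]; positivity
  rw [← hB] at hpl
  obtain ⟨D, hD⟩ : ∃ D, D = ‖q‖ ^ 2 - r ^ 2 * ‖p‖ ^ 2 := ⟨_, rfl⟩
  -- `1 - |w|²`
  have hw2 : 1 - ‖w‖ ^ 2 = D / ‖q‖ ^ 2 := by
    rw [hw, ← hq, ← hp, norm_mul, norm_div, hr, hD]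
    field_simp
  have hDpos : 0 < D := by
    have h1 : 0 < 1 - ‖w‖ ^ 2 := by nlinarith [norm_nonneg w]
    rw [hw2] at h1
    have := mul_pos h1 (show 0 < ‖q‖ ^ 2 by positivity)
    rwa [div_mul_cancel₀ _ (by positivity)] at this
  have hpq : ‖p - q‖ = (1 - a) * V := by
    have : p - q = -(((1 - a : ℝ) : ℂ) * (1 - y)) := by rw [hp, hq]; push_cast; ring
    rw [this, norm_neg, norm_mul, norm_real, Real.norm_eq_abs, abs_of_pos ha', hV]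
  have hAB : A ^ 2 - B ^ 2 = (1 - r ^ 2) * D := by
    have e1 : B ^ 2 = r ^ 2 * ‖p - q‖ ^ 2 := by rw [hpq, hB]; ring
    have e2 : A ^ 2 = ‖q - (r : ℂ) ^ 2 * p‖ ^ 2 := by rw [hA, hp, hq]
    rw [e1, e2, hD, ← normSq_eq_norm_sq, ← normSq_eq_norm_sq, ← normSq_eq_norm_sq,
      ← normSq_eq_norm_sq, normSq_apply, normSq_apply, normSq_apply, normSq_apply,
      pow_two (r : ℂ)]
    simp only [sub_re, sub_im, mul_re, mul_im, ofReal_re, ofReal_im]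
    ring
  have hA0 : 0 ≤ A := by rw [hA]; exact norm_nonneg _
  have hABlt : B < A := by
    have : B ^ 2 < A ^ 2 := by
      have := mul_pos hr2 hDpos
      linarith
    exact lt_of_pow_lt_pow_left₀ 2 hA0 this
  have hApos : 0 < A := lt_of_le_of_lt hB0 hABlt
  -- `δ = B / A`
  have hδAB : δ = B / A := by
    have e0 : conj z * z = ((r ^ 2 : ℝ) : ℂ) := by
      rw [mul_comm, Complex.mul_conj, normSq_eq_norm_sq, hr]
    have e1 : w - z = z * (p - q) / q := by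
      rw [hw, ← hp, ← hq]; field_simp
    have e2 : 1 - conj z * w = (q - (r : ℂ) ^ 2 * p) / q := by
      rw [hw, ← hp, ← hq, ← mul_assoc, e0]
      push_cast
      field_simp
    have e3 : A = ‖q - (r : ℂ) ^ 2 * p‖ := by rw [hA, hp, hq]
    have e4 : B = ‖z * (p - q)‖ := by rw [norm_mul, hr, hpq, hB]; ring
    rw [hδ, e1, e2, e3, e4, norm_div, norm_div, norm_div]
    have : 0 < ‖q - (r : ℂ) ^ 2 * p‖ := by rw [← e3]; exact hApos
    field_simp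
  have hδ1 : δ < 1 := by rw [hδAB, div_lt_one hApos]; exact hABlt
  have hδ0 : 0 ≤ δ := by rw [hδ]; exact norm_nonneg _
  -- bound of `w'`
  have hN : ‖w'‖ ≤ (G + (1 - a ^ 2) * ‖e‖) / ‖q‖ ^ 2 := by
    have e1 : w' = ((a + 2 * y + a * y ^ 2) + ((1 - a ^ 2 : ℝ) : ℂ) * e) / q ^ 2 := by
      rw [hw', ← hq]
      have : ((a : ℂ) + y) / q = (a + y) * q / q ^ 2 := by field_simp
      rw [this, ← add_div]
      congr 1
      rw [hq]
      push_cast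
      ring
    rw [e1, norm_div, norm_pow]
    apply div_le_div_of_nonneg_right _ (by positivity)
    calc _ ≤ ‖(a : ℂ) + 2 * y + a * y ^ 2‖ + ‖((1 - a ^ 2 : ℝ) : ℂ) * e‖ := norm_add_le _ _
      _ = G + (1 - a ^ 2) * ‖e‖ := by
        rw [norm_mul, norm_real, Real.norm_eq_abs, abs_of_nonneg (by nlinarith), hG]
  -- the algebraic inequality
  obtain ⟨S, hS⟩ : ∃ S, S = (1 + 2 * a * y.re + ‖y‖ ^ 2) - G := ⟨_, rfl⟩
  rw [← hS] at hpl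
  have hDid : D = (1 - r ^ 2) * (1 + 2 * a * y.re + ‖y‖ ^ 2) + (1 - a ^ 2) * (r ^ 2 - ‖y‖ ^ 2) := by
    rw [hD, hq, hp, ← normSq_eq_norm_sq, ← normSq_eq_norm_sq, ← normSq_eq_norm_sq, normSq_apply,
      normSq_apply, normSq_apply]
    simp only [add_re, add_im, mul_re, mul_im, ofReal_re, ofReal_im, one_re, one_im]
    ring
  have hkey1 : 2 * α * B * (A - B) ≤ (1 - r ^ 2) ^ 2 * S := by
    have h1 : 0 ≤ (1 - a) * V * (A - B) := by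
      have : 0 ≤ A - B := by linarith
      positivity
    calc 2 * α * B * (A - B) = (2 * r * α) * ((1 - a) * V * (A - B)) := by rw [hB]; ring
      _ ≤ (1 - r) ^ 2 * ((1 - a) * V * (A - B)) := mul_le_mul_of_nonneg_right hrα h1
      _ ≤ (1 - r) ^ 2 * ((1 + r) ^ 2 * S) := mul_le_mul_of_nonneg_left hpl (sq_nonneg _)
      _ = (1 - r ^ 2) ^ 2 * S := by ring
  have hkey2 : (1 - r ^ 2) * (G + (1 - a ^ 2) * ‖e‖) ≤ D * (1 - α * (2 * δ / (1 + δ))) := by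
    have h1 : (1 - r ^ 2) * (G + (1 - a ^ 2) * ‖e‖) ≤ D - (1 - r ^ 2) * S := by
      have h2 : (1 - a ^ 2) * (‖e‖ * (1 - r ^ 2)) ≤ (1 - a ^ 2) * (r ^ 2 - ‖y‖ ^ 2) :=
        mul_le_mul_of_nonneg_left he (by nlinarith)
      rw [hDid, hS]
      linarith
    have h3 : 2 * δ / (1 + δ) = 2 * B / (A + B) := by
      rw [hδAB]; field_simp
    have h4 : D * (α * (2 * δ / (1 + δ))) ≤ (1 - r ^ 2) * S := by
      rw [h3]
      have hABpos : 0 < A + B := by linarith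
      have h5 : (1 - r ^ 2) * (D * (α * (2 * B / (A + B)))) ≤ (1 - r ^ 2) * ((1 - r ^ 2) * S) := by
        calc (1 - r ^ 2) * (D * (α * (2 * B / (A + B))))
            = (A ^ 2 - B ^ 2) * (α * (2 * B / (A + B))) := by rw [hAB]; ring
          _ = 2 * α * B * (A - B) := by field_simp; ring
          _ ≤ (1 - r ^ 2) ^ 2 * S := hkey1
          _ = _ := by ring
      exact le_of_mul_le_mul_left h5 hr2
    linarith
  -- Bernoulli
  have hT : 0 < (1 + δ) / (1 - δ) := div_pos (by linarith) (by linarith)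
  have hbern : 1 - α * (2 * δ / (1 + δ)) ≤ ((1 - δ) / (1 + δ)) ^ α := by
    have h1 := one_add_mul_self_le_rpow_one_add (s := (1 - δ) / (1 + δ) - 1)
      (by
        have : 0 ≤ (1 - δ) / (1 + δ) := div_nonneg (by linarith) (by linarith)
        linarith) hα
    have e1 : 1 + ((1 - δ) / (1 + δ) - 1) = (1 - δ) / (1 + δ) := by ring
    rw [e1] at h1
    have e2 : 1 - α * (2 * δ / (1 + δ)) = 1 + α * ((1 - δ) / (1 + δ) - 1) := by
      have : 1 + δ ≠ 0 := by linarith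
      field_simp
      ring
    rw [e2]; exact h1
  have hprod : ((1 - δ) / (1 + δ)) ^ α * ((1 + δ) / (1 - δ)) ^ α = 1 := by
    rw [← Real.mul_rpow (div_nonneg (by linarith) (by linarith)) hT.le]
    have : (1 - δ) / (1 + δ) * ((1 + δ) / (1 - δ)) = 1 := by
      have h1 : 1 - δ ≠ 0 := by linarith
      have h2 : 1 + δ ≠ 0 := by linarith
      field_simp
    rw [this, Real.one_rpow]
  have hTα : 0 < ((1 + δ) / (1 - δ)) ^ α := Real.rpow_pos_of_pos hT α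
  rw [hw2, le_div_iff₀ (by positivity)]
  have hN2 : ‖w'‖ * ‖q‖ ^ 2 ≤ G + (1 - a ^ 2) * ‖e‖ := by
    rwa [le_div_iff₀ (by positivity)] at hN
  calc ‖w'‖ * ((1 - r ^ 2) * ((1 + δ) / (1 - δ)) ^ α) * ‖q‖ ^ 2
      = (‖w'‖ * ‖q‖ ^ 2) * ((1 - r ^ 2) * ((1 + δ) / (1 - δ)) ^ α) := by ring
    _ ≤ (G + (1 - a ^ 2) * ‖e‖) * ((1 - r ^ 2) * ((1 + δ) / (1 - δ)) ^ α) :=
        mul_le_mul_of_nonneg_right hN2 (by positivity)
    _ = ((1 - r ^ 2) * (G + (1 - a ^ 2) * ‖e‖)) * ((1 + δ) / (1 - δ)) ^ α := by ring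
    _ ≤ (D * (1 - α * (2 * δ / (1 + δ)))) * ((1 + δ) / (1 - δ)) ^ α :=
        mul_le_mul_of_nonneg_right hkey2 hTα.le
    _ ≤ (D * ((1 - δ) / (1 + δ)) ^ α) * ((1 + δ) / (1 - δ)) ^ α :=
        mul_le_mul_of_nonneg_right (mul_le_mul_of_nonneg_left hbern hDpos.le) hTα.le
    _ = D * (((1 - δ) / (1 + δ)) ^ α * ((1 + δ) / (1 - δ)) ^ α) := by ring
    _ = D := by rw [hprod, mul_one]

/-- the radius `ρ(α)` -/
theorem rho_facts {α r : ℝ} (hα : 1 ≤ α) (hr0 : 0 ≤ r) (hr : r < α + 1 - √(α ^ 2 + 2 * α)) :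
    2 * r * α ≤ (1 - r) ^ 2 ∧ r < 1 := by
  have h1 : √(α ^ 2 + 2 * α) < α + 1 - r := by linarith
  have h0 : 0 ≤ √(α ^ 2 + 2 * α) := Real.sqrt_nonneg _
  have h2 : √(α ^ 2 + 2 * α) ^ 2 < (α + 1 - r) ^ 2 := pow_lt_pow_left₀ h1 h0 two_ne_zero
  rw [Real.sq_sqrt (by positivity)] at h2
  have h3 : α ≤ √(α ^ 2 + 2 * α) := by
    apply Real.le_sqrt_of_sq_le; nlinarith
  constructor
  · nlinarith
  · linarith

end Q77.Camp
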