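import Pool.Agent.Helper203.NSBase

open Complex Metric Set Filter Topology

namespace Q77.Camp

/-- infinitesimal Schwarz-Pick inequality for maps into the closed disc -/
theorem sp_closed {χ : ℂ → ℂ} (hχ : DifferentiableOn ℂ χ (ball (0 : ℂ) 1))
    (hb : ∀ z : ℂ, ‖z‖ < 1 → ‖χ z‖ ≤ 1) {z : ℂ} (hz : ‖z‖ < 1) :
    ‖deriv χ z‖ * (1 - ‖z‖ ^ 2) ≤ 1 - ‖χ z‖ ^ 2 := by
  have h1 : ∀ s : ℝ, 0 < s → s < 1 →
      s * ‖deriv χ z‖ * (1 - ‖z‖ ^ 2) ≤ 1 - (s * ‖χ z‖) ^ 2 := by
    intro s hs0 hs1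
    have hd : DifferentiableOn ℂ (fun z => (s : ℂ) * χ z) (ball (0 : ℂ) 1) := hχ.const_mul _
    have hm : MapsTo (fun z => (s : ℂ) * χ z) (ball (0 : ℂ) 1) (ball (0 : ℂ) 1) := by
      intro w hw
      rw [mem_ball_zero_iff, norm_mul, norm_real, Real.norm_eq_abs, abs_of_pos hs0]
      have := hb w (by simpa using hw)
      nlinarith [norm_nonneg (χ w)]
    have h := Pool.Agent.Helper203.NS.schwarz_pick_deriv hd hm hz
    have hda : DifferentiableAt ℂ χ z := hχ.differentiableAt (isOpen_ball.mem_nhds (by simpa using hz))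
    rw [deriv_const_mul _ hda, norm_mul, norm_mul, norm_real, Real.norm_eq_abs,
      abs_of_pos hs0] at h
    exact h
  have hl : Tendsto (fun s : ℝ => s * ‖deriv χ z‖ * (1 - ‖z‖ ^ 2)) (𝓝[<] 1)
      (𝓝 (1 * ‖deriv χ z‖ * (1 - ‖z‖ ^ 2))) :=
    (Continuous.tendsto (by fun_prop) 1).mono_left nhdsWithin_le_nhds
  have hr : Tendsto (fun s : ℝ => 1 - (s * ‖χ z‖) ^ 2) (𝓝[<] 1)
      (𝓝 (1 - (1 * ‖χ z‖) ^ 2)) :=
    (Continuous.tendsto (by fun_prop) 1).mono_left nhdsWithin_le_nhds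
  have := le_of_tendsto_of_tendsto hl hr (by
    filter_upwards [Ioo_mem_nhdsLT (show (0 : ℝ) < 1 by norm_num)] with s hs
    exact h1 s hs.1 hs.2)
  simpa using this

theorem one_add_ne {u : ℂ} (hu : ‖u‖ < 1) : 1 + u ≠ 0 := by
  intro h
  have : u = -1 := by linear_combination h
  rw [this] at hu; simp at hu

theorem one_sub_ne {u : ℂ} (hu : ‖u‖ < 1) : 1 - u ≠ 0 := by
  intro h
  have : u = 1 := by linear_combination -h
  rw [this] at hu; simp at hu

/-- structure of a Schwarz function with `w'(0) = a ≥ 0` -/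
theorem schwarz_struct {w : ℂ → ℂ} (hw : DifferentiableOn ℂ w (ball (0 : ℂ) 1))
    (hb : ∀ z : ℂ, ‖z‖ < 1 → ‖w z‖ ≤ ‖z‖) {a : ℝ} (ha : deriv w 0 = a) (ha0 : 0 ≤ a) :
    (∀ z : ℂ, ‖z‖ < 1 → w z = z) ∨
    (a < 1 ∧ ∀ z : ℂ, ‖z‖ < 1 → ∃ y e : ℂ, ‖y‖ ≤ ‖z‖ ∧ ‖e‖ * (1 - ‖z‖ ^ 2) ≤ ‖z‖ ^ 2 - ‖y‖ ^ 2 ∧
      w z = z * ((a + y) / (1 + a * y)) ∧
      deriv w z = (a + y) / (1 + a * y) + (1 - (a : ℂ) ^ 2) * (y + e) / (1 + a * y) ^ 2) := by
  have hball : ball (0 : ℂ) 1 ∈ 𝓝 (0 : ℂ) := ball_mem_nhds _ one_pos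
  have hw0 : w 0 = 0 := by
    have := hb 0 (by simp)
    simpa using this
  have hmaps : MapsTo w (ball (0 : ℂ) 1) (closedBall (w 0) 1) := by
    intro z hz
    have hz' : ‖z‖ < 1 := by simpa using hz
    rw [hw0, mem_closedBall_zero_iff]
    exact (hb z hz').trans hz'.le
  set φ : ℂ → ℂ := dslope w 0 with hφ
  have hφd : DifferentiableOn ℂ φ (ball 0 1) := (Complex.differentiableOn_dslope hball).mpr hw
  have hφb : ∀ z : ℂ, ‖z‖ < 1 → ‖φ z‖ ≤ 1 := by
    intro z hz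
    have := norm_dslope_le_div_of_mapsTo_ball hw hmaps (show z ∈ ball (0 : ℂ) 1 by simpa using hz)
    simpa using this
  have hφ0 : φ 0 = a := by rw [hφ, dslope_same, ha]
  have hwφ : ∀ z, w z = z * φ z := by
    intro z
    by_cases h : z = 0
    · rw [h, hw0, zero_mul]
    · rw [hφ, dslope_of_ne _ h, slope_def_field, hw0]
      field_simp
      ring
  have ha1 : a ≤ 1 := by
    have := hφb 0 (by simp)
    rw [hφ0, norm_real, Real.norm_eq_abs, abs_of_nonneg ha0] at this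
    exact this
  rcases ha1.eq_or_lt with h1 | h1
  · left
    intro z hz
    have hmem0 : (0 : ℂ) ∈ ball (0 : ℂ) 1 := by simp
    have := affine_of_mapsTo_ball_of_norm_dslope_eq_div (z₀ := 0) hw hmaps hmem0 (by
      rw [← hφ, hφ0, h1]; simp) (show z ∈ ball (0 : ℂ) 1 by simpa using hz)
    simp only [hw0, sub_zero, zero_add, smul_eq_mul] at this
    rw [← hφ, hφ0, h1] at this
    simpa using this
  · right
    refine ⟨h1, ?_⟩
    have haφ : ∀ z : ℂ, ‖z‖ < 1 → 1 - (a : ℂ) * φ z ≠ 0 := by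
      intro z hz
      apply one_sub_ne
      rw [norm_mul, norm_real, Real.norm_eq_abs, abs_of_nonneg ha0]
      have := hφb z hz
      nlinarith [norm_nonneg (φ z)]
    set ψ : ℂ → ℂ := fun z => (φ z - a) / (1 - a * φ z) with hψ
    have hψd : DifferentiableOn ℂ ψ (ball 0 1) := by
      apply (hφd.sub_const _).div ((hφd.const_mul _).const_sub _)
      intro z hz
      exact haφ z (by simpa using hz)
    have hψb : ∀ z : ℂ, ‖z‖ < 1 → ‖ψ z‖ ≤ 1 := by
      intro z hz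
      rw [hψ]
      simp only
      rw [norm_div, div_le_one (norm_pos_iff.mpr (haφ z hz))]
      have hb' := hφb z hz
      have h2 : ‖φ z - a‖ ^ 2 ≤ ‖1 - (a : ℂ) * φ z‖ ^ 2 := by
        have h3 : ‖φ z‖ ^ 2 ≤ 1 := pow_le_one₀ (norm_nonneg _) hb'
        rw [← normSq_eq_norm_sq, normSq_apply] at h3
        rw [← normSq_eq_norm_sq, ← normSq_eq_norm_sq, normSq_apply, normSq_apply]
        simp only [sub_re, ofReal_re, sub_im, ofReal_im, one_re, one_im, mul_re, mul_im]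
        nlinarith [mul_nonneg (show 0 ≤ 1 - a ^ 2 by nlinarith) (sub_nonneg.mpr h3)]
      exact le_of_sq_le_sq h2 (norm_nonneg _)
    have hψ0 : ψ 0 = 0 := by rw [hψ]; simp [hφ0]
    have hψmaps : MapsTo ψ (ball (0 : ℂ) 1) (closedBall (ψ 0) 1) := by
      intro z hz
      rw [hψ0, mem_closedBall_zero_iff]
      exact hψb z (by simpa using hz)
    set χ : ℂ → ℂ := dslope ψ 0 with hχ
    have hχd : DifferentiableOn ℂ χ (ball 0 1) := (Complex.differentiableOn_dslope hball).mpr hψd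
    have hχb : ∀ z : ℂ, ‖z‖ < 1 → ‖χ z‖ ≤ 1 := by
      intro z hz
      have := norm_dslope_le_div_of_mapsTo_ball hψd hψmaps
        (show z ∈ ball (0 : ℂ) 1 by simpa using hz)
      simpa using this
    have hψχ : ∀ z, ψ z = z * χ z := by
      intro z
      by_cases h : z = 0
      · rw [h, hψ0, zero_mul]
      · rw [hχ, dslope_of_ne _ h, slope_def_field, hψ0]
        field_simp
        ring
    intro z hz
    have hzm : z ∈ ball (0 : ℂ) 1 := by simpa using hz
    have hy : ‖ψ z‖ ≤ ‖z‖ := by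
      rw [hψχ, norm_mul]
      have := hχb z hz
      nlinarith [norm_nonneg z]
    have hay : 1 + (a : ℂ) * ψ z ≠ 0 := by
      apply one_add_ne
      rw [norm_mul, norm_real, Real.norm_eq_abs, abs_of_nonneg ha0]
      nlinarith [norm_nonneg (ψ z)]
    have hφψ : ∀ x : ℂ, ‖x‖ < 1 → φ x = (a + ψ x) / (1 + a * ψ x) := by
      intro x hx
      have h2 := haφ x hx
      have h3 : 1 + (a : ℂ) * ψ x ≠ 0 := by
        apply one_add_ne
        rw [norm_mul, norm_real, Real.norm_eq_abs, abs_of_nonneg ha0]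
        have : ‖ψ x‖ ≤ 1 := hψb x hx
        nlinarith [norm_nonneg (ψ x)]
      rw [eq_div_iff h3]
      have h4 : ψ x * (1 - a * φ x) = φ x - a := by
        rw [hψ]; exact div_mul_cancel₀ _ h2
      linear_combination (-1 : ℂ) * h4
    refine ⟨ψ z, z ^ 2 * deriv χ z, hy, ?_, ?_, ?_⟩
    · have := sp_closed hχd hχb hz
      have h2 : ‖ψ z‖ ^ 2 = ‖z‖ ^ 2 * ‖χ z‖ ^ 2 := by rw [hψχ, norm_mul, mul_pow]
      rw [h2, norm_mul, norm_pow]
      nlinarith [sq_nonneg ‖z‖, mul_le_mul_of_nonneg_left this (sq_nonneg ‖z‖)]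
    · rw [hwφ, hφψ z hz]
    · -- derivative
      have hχat : HasDerivAt χ (deriv χ z) z :=
        (hχd.differentiableAt (isOpen_ball.mem_nhds hzm)).hasDerivAt
      have hψat : HasDerivAt ψ (χ z + z * deriv χ z) z := by
        have h2 : ψ = fun z => z * χ z := funext hψχ
        rw [h2]
        exact ((hasDerivAt_id' z).fun_mul hχat).congr_deriv (by ring)
      have hφat : HasDerivAt φ ((1 - (a : ℂ) ^ 2) * (χ z + z * deriv χ z) / (1 + a * ψ z) ^ 2) z := by
        have h2 : HasDerivAt (fun x => ((a : ℂ) + ψ x) / (1 + a * ψ x))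
            ((1 - (a : ℂ) ^ 2) * (χ z + z * deriv χ z) / (1 + a * ψ z) ^ 2) z := by
          have h3 := (hψat.const_add (a : ℂ)).fun_div ((hψat.const_mul (a : ℂ)).const_add 1) hay
          exact h3.congr_deriv (by congr 1; ring)
        refine h2.congr_of_eventuallyEq ?_
        filter_upwards [isOpen_ball.mem_nhds hzm] with x hx
        exact hφψ x (by simpa using hx)
      have hwat : HasDerivAt w (φ z + z *
          ((1 - (a : ℂ) ^ 2) * (χ z + z * deriv χ z) / (1 + a * ψ z) ^ 2)) z := by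
        have h2 : w = fun z => z * φ z := funext hwφ
        rw [h2]
        exact ((hasDerivAt_id' z).fun_mul hφat).congr_deriv (by ring)
      rw [hwat.deriv, ← hφψ z hz]
      congr 1
      rw [hψχ z]
      ring

end Q77.Camp
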